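import Pool.Agent.H27.G.R_seed8.Helper240.ZU.Defs

open Complex Filter Topology Set MeasureTheory

namespace ZU.J_a1














theorem zf_int (c : ℝ) (hc : 0 < c) (s : ℂ) (hs : 0 < s.re) :
    IntegrableOn (fun u : ℝ => ((Int.fract u : ℝ) : ℂ) * (u : ℂ) ^ (-s - 1)) (Ioi c) := by
  have h1 : IntegrableOn (fun u : ℝ => (u : ℂ) ^ (-s - 1)) (Ioi c) := by
    apply integrableOn_Ioi_cpow_of_lt _ hc
    simp only [sub_re, neg_re, one_re]
    linarith
  refine Integrable.bdd_mul (c := 1) h1 ?_ ?_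
  · exact (Complex.measurable_ofReal.comp measurable_fract).aestronglyMeasurable
  · refine Filter.Eventually.of_forall (fun u => ?_)
    rw [Complex.norm_real, Real.norm_eq_abs, Int.abs_fract]
    exact (Int.fract_lt_one u).le

theorem zf_one_lt (s : ℂ) (hs : 1 < s.re) :
    riemannZeta s = 1 + 1 / (s - 1) -
      s * ∫ u in Ioi (1 : ℝ), ((Int.fract u : ℝ) : ℂ) * (u : ℂ) ^ (-s - 1) := by
  have hO : (fun n : ℕ => ∑ k ∈ Finset.Icc 1 n, ‖(1 : ℕ → ℂ) k‖) =O[atTop]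
      fun n : ℕ => (n : ℝ) ^ (1 : ℝ) := by
    have : (fun n : ℕ => ∑ k ∈ Finset.Icc 1 n, ‖(1 : ℕ → ℂ) k‖) =
        fun n : ℕ => (n : ℝ) ^ (1 : ℝ) := by
      funext n
      simp
    rw [this]
  have h1 := LSeries_eq_mul_integral' (1 : ℕ → ℂ) (r := 1) zero_le_one hs hO
  rw [LSeries_one_eq_riemannZeta hs] at h1
  have hs1 : s - 1 ≠ 0 := by
    intro h
    have : (s - 1).re = 0 := by rw [h]; simp
    simp only [sub_re, one_re] at this
    linarith
  have h2 : ∫ t in Ioi (1:ℝ), (∑ k ∈ Finset.Icc 1 ⌊t⌋₊, (1 : ℕ → ℂ) k) * (t:ℂ) ^ (-(s+1)) =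
      ∫ t in Ioi (1:ℝ), ((t:ℂ)^(-s) - ((Int.fract t : ℝ) : ℂ) * (t:ℂ)^(-s-1)) := by
    apply setIntegral_congr_fun measurableSet_Ioi
    intro t ht
    have ht0 : (0:ℝ) < t := lt_trans one_pos ht
    have htc : (t : ℂ) ≠ 0 := by exact_mod_cast ht0.ne'
    have e1 : ((⌊t⌋₊ : ℕ) : ℂ) = (t : ℂ) - ((Int.fract t : ℝ):ℂ) := by
      have : ((⌊t⌋₊ : ℕ) : ℝ) = t - Int.fract t := by
        rw [natCast_floor_eq_intCast_floor ht0.le, Int.self_sub_fract]
      rw [← Complex.ofReal_sub, ← this]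
      simp
    have e2 : (t : ℂ) ^ (-s) = (t : ℂ) * (t : ℂ) ^ (-s - 1) := by
      have : -s = 1 + (-s - 1) := by ring
      conv_lhs => rw [this, Complex.cpow_add _ _ htc, Complex.cpow_one]
    have e3 : -(s + 1) = -s - 1 := by ring
    simp only [Pi.one_apply, Finset.sum_const, Nat.card_Icc, nsmul_eq_mul, mul_one,
      Nat.add_sub_cancel]
    rw [e1, e2, e3]
    ring
  have hi1 : IntegrableOn (fun t : ℝ => (t:ℂ)^(-s)) (Ioi 1) := by
    apply integrableOn_Ioi_cpow_of_lt _ one_pos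
    simp only [neg_re]
    linarith
  rw [h2, integral_sub hi1 (zf_int 1 one_pos s (by linarith)),
    integral_Ioi_cpow_of_lt (by simp only [neg_re]; linarith) one_pos] at h1
  rw [h1]
  have e4 : -s + 1 ≠ 0 := by
    intro h
    apply hs1
    linear_combination -h
  simp only [Complex.ofReal_one, Complex.one_cpow]
  field_simp
  ring

theorem zf_diff : DifferentiableOn ℂ (fun s : ℂ =>
    ∫ u in Ioi (1 : ℝ), ((Int.fract u : ℝ) : ℂ) * (u : ℂ) ^ (-s - 1)) {s : ℂ | 0 < s.re} := by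
  have hm : ∀ s : ℂ, mellin (indicator (Ioi (1:ℝ)) (fun u : ℝ => ((Int.fract u : ℝ) : ℂ))) (-s) =
      ∫ u in Ioi (1 : ℝ), ((Int.fract u : ℝ) : ℂ) * (u : ℂ) ^ (-s - 1) := by
    intro s
    unfold mellin
    have : (fun t : ℝ => (t:ℂ) ^ (-s - 1) •
        indicator (Ioi (1:ℝ)) (fun u : ℝ => ((Int.fract u : ℝ) : ℂ)) t) =
        indicator (Ioi (1:ℝ)) (fun u : ℝ => ((Int.fract u : ℝ) : ℂ) * (u : ℂ) ^ (-s - 1)) := by
      funext t
      by_cases ht : t ∈ Ioi (1:ℝ)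
      · rw [indicator_of_mem ht, indicator_of_mem ht, smul_eq_mul, mul_comm]
      · rw [indicator_of_notMem ht, indicator_of_notMem ht, smul_zero]
    rw [this, setIntegral_indicator measurableSet_Ioi]
    congr 2
    rw [Ioi_inter_Ioi]
    norm_num
  intro s hs
  have hs' : 0 < s.re := hs
  have hbd : ∀ t : ℝ, ‖indicator (Ioi (1:ℝ)) (fun u : ℝ => ((Int.fract u : ℝ) : ℂ)) t‖ ≤ 1 := by
    intro t
    by_cases ht : t ∈ Ioi (1:ℝ)
    · rw [indicator_of_mem ht, Complex.norm_real, Real.norm_eq_abs, Int.abs_fract]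
      exact (Int.fract_lt_one t).le
    · rw [indicator_of_notMem ht, norm_zero]
      exact zero_le_one
  have hmeas : Measurable (indicator (Ioi (1:ℝ)) (fun u : ℝ => ((Int.fract u : ℝ) : ℂ))) :=
    (Complex.measurable_ofReal.comp measurable_fract).indicator measurableSet_Ioi
  have hd : DifferentiableAt ℂ
      (mellin (indicator (Ioi (1:ℝ)) (fun u : ℝ => ((Int.fract u : ℝ) : ℂ)))) (-s) := by
    refine mellin_differentiableAt_of_isBigO_rpow (a := 0) (b := -s.re - 1) ?_ ?_ ?_ ?_ ?_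
    · have hc : LocallyIntegrable (fun _ : ℝ => (1:ℝ)) volume := locallyIntegrable_const 1
      have hl : LocallyIntegrable
          (indicator (Ioi (1:ℝ)) (fun u : ℝ => ((Int.fract u : ℝ) : ℂ))) volume := by
        refine hc.mono hmeas.aestronglyMeasurable (Filter.Eventually.of_forall (fun t => ?_))
        rw [norm_one]
        exact hbd t
      exact hl.locallyIntegrableOn _
    · refine Asymptotics.IsBigO.of_bound 1 (Filter.Eventually.of_forall (fun t => ?_))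
      rw [neg_zero, Real.rpow_zero, norm_one, mul_one]
      exact hbd t
    · rw [neg_re]
      linarith
    · refine Asymptotics.IsBigO.of_bound 1 ?_
      have : ∀ᶠ t : ℝ in 𝓝[>] 0, t < 1 :=
        (eventually_lt_nhds zero_lt_one).filter_mono nhdsWithin_le_nhds
      filter_upwards [this] with t ht
      rw [indicator_of_notMem (by simpa using ht.le), norm_zero]
      positivity
    · rw [neg_re]
      linarith
  have hcomp : DifferentiableAt ℂ (fun s : ℂ =>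
      mellin (indicator (Ioi (1:ℝ)) (fun u : ℝ => ((Int.fract u : ℝ) : ℂ))) (-s)) s :=
    DifferentiableAt.comp (g := mellin (indicator (Ioi (1:ℝ)) (fun u : ℝ => ((Int.fract u : ℝ) : ℂ))))
      (f := fun s : ℂ => -s) s hd differentiableAt_id.neg
  have heq : (fun s : ℂ =>
      mellin (indicator (Ioi (1:ℝ)) (fun u : ℝ => ((Int.fract u : ℝ) : ℂ))) (-s)) =
      fun s : ℂ => ∫ u in Ioi (1 : ℝ), ((Int.fract u : ℝ) : ℂ) * (u : ℂ) ^ (-s - 1) := by
    funext s
    exact hm s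
  rw [heq] at hcomp
  exact hcomp.differentiableWithinAt

theorem zf_one (s : ℂ) (hs : 0 < s.re) (hs1 : s ≠ 1) :
    riemannZeta s = 1 + 1 / (s - 1) -
      s * ∫ u in Ioi (1 : ℝ), ((Int.fract u : ℝ) : ℂ) * (u : ℂ) ^ (-s - 1) := by
  obtain ⟨F, hF⟩ : ∃ F : ℂ → ℂ, F = fun s : ℂ =>
    ∫ u in Ioi (1 : ℝ), ((Int.fract u : ℝ) : ℂ) * (u : ℂ) ^ (-s - 1) := ⟨_, rfl⟩
  have hFd : DifferentiableOn ℂ F {s : ℂ | 0 < s.re} := by rw [hF]; exact zf_diff
  obtain ⟨H, hH⟩ : ∃ H : ℂ → ℂ, H = Function.update (fun s => (s - 1) * riemannZeta s) 1 1 :=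
    ⟨_, rfl⟩
  have hHne : ∀ z : ℂ, z ≠ 1 → H z = (z - 1) * riemannZeta z := by
    intro z hz
    rw [hH, Function.update_of_ne hz]
  have hopen : IsOpen {s : ℂ | 0 < s.re} := isOpen_lt continuous_const Complex.continuous_re
  have hmem1 : (1 : ℂ) ∈ {s : ℂ | 0 < s.re} := by simp
  have hHd : DifferentiableOn ℂ H {s : ℂ | 0 < s.re} := by
    rw [← Complex.differentiableOn_compl_singleton_and_continuousAt_iff (c := 1)
      (hopen.mem_nhds hmem1)]
    constructor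
    · have h1 : DifferentiableOn ℂ (fun s => (s - 1) * riemannZeta s)
          ({s : ℂ | 0 < s.re} \ {1}) := by
        intro z hz
        have hz1 : z ≠ 1 := fun h => hz.2 (by rw [h]; rfl)
        exact ((differentiableAt_id.sub_const 1).mul
          (differentiableAt_riemannZeta hz1)).differentiableWithinAt
      refine h1.congr ?_
      intro z hz
      have hz1 : z ≠ 1 := fun h => hz.2 (by rw [h]; rfl)
      exact hHne z hz1
    · rw [hH, continuousAt_update_same]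
      exact riemannZeta_residue_one
  have hKd : DifferentiableOn ℂ (fun z => (z - 1) * (1 - z * F z) + 1) {s : ℂ | 0 < s.re} := by
    have hid : DifferentiableOn ℂ (fun z : ℂ => z) {s : ℂ | 0 < s.re} := differentiableOn_id
    exact ((hid.sub_const 1).mul ((hid.mul hFd).const_sub 1)).add_const 1
  have hpre : IsPreconnected {s : ℂ | 0 < s.re} := by
    have : Convex ℝ {s : ℂ | 0 < s.re} := convex_halfSpace_re_gt 0
    exact this.isPreconnected
  have heq : EqOn H (fun z => (z - 1) * (1 - z * F z) + 1) {s : ℂ | 0 < s.re} := by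
    refine AnalyticOnNhd.eqOn_of_preconnected_of_eventuallyEq
      (hHd.analyticOnNhd hopen) (hKd.analyticOnNhd hopen) hpre (z₀ := 2) (by simp) ?_
    have hopen1 : IsOpen {s : ℂ | 1 < s.re} := isOpen_lt continuous_const Complex.continuous_re
    filter_upwards [hopen1.mem_nhds (show (2:ℂ) ∈ {s : ℂ | 1 < s.re} by simp)] with z hz
    have hz' : 1 < z.re := hz
    have hz1 : z ≠ 1 := by
      intro h
      rw [h] at hz'
      simp at hz'
    rw [hHne z hz1, zf_one_lt z hz', hF]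
    have : z - 1 ≠ 0 := sub_ne_zero.2 hz1
    field_simp
    ring
  have h := heq hs
  simp only at h
  rw [hHne s hs1, hF] at h
  have hne : s - 1 ≠ 0 := sub_ne_zero.2 hs1
  have h' : riemannZeta s = ((s - 1) * (1 - s *
    ∫ u in Ioi (1 : ℝ), ((Int.fract u : ℝ) : ℂ) * (u : ℂ) ^ (-s - 1)) + 1) / (s - 1) := by
    rw [eq_div_iff hne, mul_comm]
    exact h
  rw [h']
  field_simp
  ring

theorem zf_step (N : ℕ) (hN : 1 ≤ N) (s : ℂ) (hs : 0 < s.re) (hs1 : s ≠ 1) :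
    ∫ u in Ioi (N : ℝ), ((Int.fract u : ℝ) : ℂ) * (u : ℂ) ^ (-s - 1) =
    ((((N:ℂ) + 1) ^ (1 - s) - (N:ℂ) ^ (1 - s)) / (1 - s) +
      (N:ℂ) * ((((N:ℂ) + 1) ^ (-s) - (N:ℂ) ^ (-s)) / s)) +
    ∫ u in Ioi ((N + 1 : ℕ) : ℝ), ((Int.fract u : ℝ) : ℂ) * (u : ℂ) ^ (-s - 1) := by
  have hN0 : (0:ℝ) < N := by exact_mod_cast hN
  have hle : (N:ℝ) ≤ ((N + 1 : ℕ) : ℝ) := by push_cast; linarith
  have hint := zf_int N hN0 s hs
  have hun : Ioi (N:ℝ) = Ioc (N:ℝ) ((N + 1 : ℕ) : ℝ) ∪ Ioi ((N + 1 : ℕ) : ℝ) :=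
    (Ioc_union_Ioi_eq_Ioi hle).symm
  have hdis : Disjoint (Ioc (N:ℝ) ((N + 1 : ℕ) : ℝ)) (Ioi ((N + 1 : ℕ) : ℝ)) :=
    Ioc_disjoint_Ioi le_rfl
  have hs0 : s ≠ 0 := by
    intro h
    rw [h] at hs
    simp at hs
  rw [hun, setIntegral_union hdis measurableSet_Ioi
    (hint.mono_set (by rw [hun]; exact subset_union_left))
    (hint.mono_set (by rw [hun]; exact subset_union_right))]
  congr 1
  rw [integral_Ioc_eq_integral_Ioo]
  have hcongr : ∫ u in Ioo (N:ℝ) ((N + 1 : ℕ) : ℝ), ((Int.fract u : ℝ) : ℂ) * (u : ℂ) ^ (-s - 1) =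
      ∫ u in Ioo (N:ℝ) ((N + 1 : ℕ) : ℝ), ((u : ℂ) ^ (-s) - (N:ℂ) * (u : ℂ) ^ (-s - 1)) := by
    apply setIntegral_congr_fun measurableSet_Ioo
    intro u hu
    have hu0 : (0:ℝ) < u := lt_trans hN0 hu.1
    have huc : (u : ℂ) ≠ 0 := by exact_mod_cast hu0.ne'
    have hfl : ⌊u⌋ = (N:ℤ) := by
      rw [Int.floor_eq_iff]
      constructor
      · exact_mod_cast hu.1.le
      · have := hu.2
        push_cast at this ⊢
        exact this
    have hfr : Int.fract u = u - N := by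
      rw [← Int.self_sub_floor, hfl]
      simp
    have e2 : (u : ℂ) ^ (-s) = (u : ℂ) * (u : ℂ) ^ (-s - 1) := by
      have : -s = 1 + (-s - 1) := by ring
      conv_lhs => rw [this, Complex.cpow_add _ _ huc, Complex.cpow_one]
    simp only
    rw [hfr, e2]
    push_cast
    ring
  rw [hcongr, ← integral_Ioc_eq_integral_Ioo, ← intervalIntegral.integral_of_le hle]
  have h0 : (0:ℝ) ∉ uIcc (N:ℝ) ((N + 1 : ℕ) : ℝ) := by
    rw [uIcc_of_le hle]
    intro h
    linarith [h.1]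
  have i1 : IntervalIntegrable (fun u : ℝ => (u : ℂ) ^ (-s)) volume (N:ℝ) ((N + 1 : ℕ) : ℝ) :=
    intervalIntegral.intervalIntegrable_cpow (Or.inr h0)
  have i2 : IntervalIntegrable (fun u : ℝ => (N:ℂ) * (u : ℂ) ^ (-s - 1)) volume
      (N:ℝ) ((N + 1 : ℕ) : ℝ) :=
    (intervalIntegral.intervalIntegrable_cpow (Or.inr h0)).const_mul _
  rw [intervalIntegral.integral_sub i1 i2, intervalIntegral.integral_const_mul,
    integral_cpow (Or.inr ⟨by intro h; apply hs1; linear_combination -h, h0⟩),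
    integral_cpow (Or.inr ⟨by intro h; apply hs0; linear_combination -h, h0⟩)]
  have e5 : -s + 1 = 1 - s := by ring
  have e6 : -s - 1 + 1 = -s := by ring
  rw [e5, e6]
  push_cast
  rw [div_neg]
  ring

/-- TARGET -/
theorem zeta_formula (N : ℕ) (hN : 1 ≤ N) (s : ℂ) (hs : 0 < s.re) (hs1 : s ≠ 1) :
    riemannZeta s = DN N s + (N : ℂ) ^ (1 - s) / (s - 1) -
      s * ∫ u in Ioi (N : ℝ), ((Int.fract u : ℝ) : ℂ) * (u : ℂ) ^ (-s - 1) := by
  induction N, hN using Nat.le_induction with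
  | base =>
    rw [Nat.cast_one, zf_one s hs hs1]
    unfold DN
    simp
  | succ N hN ih =>
    rw [ih, zf_step N hN s hs hs1]
    have hd : DN (N + 1) s = DN N s + ((N:ℂ) + 1) ^ (-s) := by
      unfold DN
      rw [Finset.sum_Icc_succ_top (by omega)]
      push_cast
      rfl
    rw [hd]
    have hNc : (N : ℂ) ≠ 0 := by
      have : N ≠ 0 := by omega
      exact_mod_cast this
    have hNc1 : (N : ℂ) + 1 ≠ 0 := by
      have : N + 1 ≠ 0 := by omega
      exact_mod_cast this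
    have hs0 : s ≠ 0 := by
      intro h
      rw [h] at hs
      simp at hs
    have hne : s - 1 ≠ 0 := sub_ne_zero.2 hs1
    have hne' : 1 - s ≠ 0 := sub_ne_zero.2 hs1.symm
    have e1 : (N:ℂ) ^ (1 - s) = N * (N:ℂ) ^ (-s) := by
      rw [sub_eq_add_neg, Complex.cpow_add _ _ hNc, Complex.cpow_one]
    have e2 : ((N:ℂ) + 1) ^ (1 - s) = (N + 1) * ((N:ℂ) + 1) ^ (-s) := by
      rw [sub_eq_add_neg, Complex.cpow_add _ _ hNc1, Complex.cpow_one]
    have hcast : ((N + 1 : ℕ) : ℂ) = (N:ℂ) + 1 := by push_cast; rfl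
    rw [hcast, e1, e2]
    generalize (N:ℂ) ^ (-s) = Q
    generalize ((N:ℂ) + 1) ^ (-s) = P
    generalize (∫ u in Ioi ((N + 1 : ℕ) : ℝ), ((Int.fract u : ℝ) : ℂ) * (u : ℂ) ^ (-s - 1)) = J
    have e3 : ((N:ℂ) + 1) * P - N * Q = ((N:ℂ) + 1) * P - N * Q := rfl
    have e4 : (((N:ℂ) + 1) * P - N * Q) / (1 - s) = -((((N:ℂ) + 1) * P - N * Q) / (s - 1)) := by
      rw [← div_neg, neg_sub]
    rw [e4]
    field_simp
    ring


end ZU.J_a1

alias ZU.zeta_formula := ZU.J_a1.zeta_formula
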