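import Pool.Agent.H27.G.R_seed8.Helper240.ZU.Defs

open Complex Filter Topology Set MeasureTheory

namespace ZU.J_a3














theorem gm_norm (T w t : ℝ) :
    ‖cexp (((-(1 / T ^ 2) : ℝ) : ℂ) * (t : ℂ) ^ 2 + (I * w) * t + 0)‖ = Real.exp (-(1 / T ^ 2) * t ^ 2) := by
  rw [Complex.norm_exp]
  congr 1
  have e : (((-(1 / T ^ 2) : ℝ) : ℂ) * (t : ℂ) ^ 2 + (I * w) * t + 0) =
      (((-(1 / T ^ 2) * t ^ 2 : ℝ) : ℂ)) + ((w * t : ℝ) : ℂ) * I := by
    push_cast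
    ring
  rw [e, Complex.add_re, Complex.ofReal_re, Complex.re_ofReal_mul, Complex.I_re, mul_zero, add_zero]

theorem gm_int (T w : ℝ) (hT : 0 < T) :
    Integrable (fun t : ℝ => cexp (((-(1 / T ^ 2) : ℝ) : ℂ) * (t : ℂ) ^ 2 + (I * w) * t + 0)) := by
  have h1 : Integrable fun t : ℝ => Real.exp (-(1 / T ^ 2) * t ^ 2) :=
    integrable_exp_neg_mul_sq (by positivity)
  refine h1.mono' (by fun_prop) (Eventually.of_forall fun t => ?_)
  rw [gm_norm]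

theorem gm_val (T w : ℝ) (hT : 0 < T) :
    ∫ t : ℝ, cexp (((-(1 / T ^ 2) : ℝ) : ℂ) * (t : ℂ) ^ 2 + (I * w) * t + 0) =
      ((√Real.pi * T * Real.exp (-(T ^ 2 * w ^ 2 / 4)) : ℝ) : ℂ) := by
  have hT' : (T : ℂ) ≠ 0 := by exact_mod_cast hT.ne'
  rw [integral_cexp_quadratic (by rw [Complex.ofReal_re]; have : 0 < 1 / T ^ 2 := by positivity
                                  linarith)]
  have e1 : ((Real.pi : ℂ) / -((-(1 / T ^ 2) : ℝ) : ℂ)) ^ (1 / 2 : ℂ) = ((√Real.pi * T : ℝ) : ℂ) := by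
    have e2 : ((Real.pi : ℂ) / -((-(1 / T ^ 2) : ℝ) : ℂ)) = ((Real.pi * T ^ 2 : ℝ) : ℂ) := by
      push_cast
      field_simp
    have e3 : (1 / 2 : ℂ) = ((1 / 2 : ℝ) : ℂ) := by push_cast; ring
    rw [e2, e3, ← Complex.ofReal_cpow (by positivity), ← Real.sqrt_eq_rpow,
      Real.sqrt_mul Real.pi_pos.le, Real.sqrt_sq hT.le]
  have e4 : (0 - (I * w) ^ 2 / (4 * ((-(1 / T ^ 2) : ℝ) : ℂ))) =
      ((-(T ^ 2 * w ^ 2 / 4) : ℝ) : ℂ) := by
    rw [mul_pow, Complex.I_sq]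
    push_cast
    field_simp
    ring
  rw [e1, e4, ← Complex.ofReal_exp, ← Complex.ofReal_mul]

/-- modulus of the coefficient -/
noncomputable def gr (σ : ℝ) (n : ℕ) : ℝ := Real.exp (-(σ * Real.log n))

theorem gm_cpow (σ t : ℝ) (n : ℕ) (hn : 1 ≤ n) :
    (n : ℂ) ^ (-((σ : ℂ) + t * I)) = (gr σ n : ℂ) * cexp (-(I * Real.log n * t)) := by
  have hn0 : (n : ℂ) ≠ 0 := by exact_mod_cast (by omega : n ≠ 0)
  rw [Complex.cpow_def_of_ne_zero hn0, gr, Complex.ofReal_exp, ← Complex.exp_add,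
    ← Complex.natCast_log]
  congr 1
  push_cast
  ring

theorem gm_expand (σ T t : ℝ) (S : Finset ℕ) (hS : ∀ n ∈ S, 1 ≤ n) :
    ((Real.exp (-(t / T) ^ 2) * ‖∑ n ∈ S, (n : ℂ) ^ (-((σ : ℂ) + t * I))‖ ^ 2 : ℝ) : ℂ) =
      ∑ m ∈ S, ∑ n ∈ S, ((gr σ m * gr σ n : ℝ) : ℂ) *
        cexp (((-(1 / T ^ 2) : ℝ) : ℂ) * (t : ℂ) ^ 2 +
          (I * ((Real.log n - Real.log m : ℝ) : ℂ)) * t + 0) := by
  have h1 : ∑ n ∈ S, (n : ℂ) ^ (-((σ : ℂ) + t * I)) =
      ∑ n ∈ S, (gr σ n : ℂ) * cexp (-(I * Real.log n * t)) :=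
    Finset.sum_congr rfl fun n hn => gm_cpow σ t n (hS n hn)
  rw [h1, Complex.ofReal_mul, Complex.ofReal_pow, ← Complex.mul_conj', map_sum, Finset.sum_mul_sum,
    Finset.mul_sum]
  refine Finset.sum_congr rfl fun m _ => ?_
  rw [Finset.mul_sum]
  refine Finset.sum_congr rfl fun n _ => ?_
  rw [map_mul, Complex.conj_ofReal, ← Complex.exp_conj]
  have e1 : (starRingEnd ℂ) (-(I * Real.log n * t)) = I * Real.log n * t := by
    simp only [map_neg, map_mul, Complex.conj_I, Complex.conj_ofReal]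
    ring
  rw [e1, Complex.ofReal_exp]
  have e2 : (((-(1 / T ^ 2) : ℝ) : ℂ) * (t : ℂ) ^ 2 +
      (I * ((Real.log n - Real.log m : ℝ) : ℂ)) * t + 0) =
      ((-(t / T) ^ 2 : ℝ) : ℂ) + (-(I * Real.log m * t)) + (I * Real.log n * t) := by
    push_cast
    ring
  rw [e2, Complex.exp_add, Complex.exp_add]
  push_cast
  ring

theorem gm_log {L m n : ℕ} (hm : 1 ≤ m) (hmL : m ≤ L) (hn : 1 ≤ n) (hnL : n ≤ L) (h : m < n) :
    1 / (L : ℝ) ≤ Real.log n - Real.log m := by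
  have hm0 : (0 : ℝ) < m := by exact_mod_cast hm
  have hn0 : (0 : ℝ) < n := by exact_mod_cast hn
  have hL0 : (0 : ℝ) < L := by exact_mod_cast (by omega : 0 < L)
  have h1 := Real.one_sub_inv_le_log_of_pos (div_pos hn0 hm0)
  rw [Real.log_div hn0.ne' hm0.ne'] at h1
  have h2 : (m : ℝ) + 1 ≤ n := by exact_mod_cast h
  have hnL' : (n : ℝ) ≤ L := by exact_mod_cast hnL
  have h3 : 1 / (L : ℝ) ≤ 1 - ((n : ℝ) / m)⁻¹ := by
    rw [inv_div]
    have e : 1 - (m : ℝ) / n = ((n : ℝ) - m) / n := by field_simp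
    rw [e, div_le_div_iff₀ hL0 hn0]
    nlinarith
  linarith

/-- TARGET -/
theorem gauss_mv (σ : ℝ) (hσ : 0 ≤ σ) (N L : ℕ) (T : ℝ) (hT : 0 < T) :
    Integrable (fun t : ℝ => Real.exp (-(t / T) ^ 2) *
      ‖∑ n ∈ Finset.Ioc N L, (n : ℂ) ^ (-((σ : ℂ) + t * I))‖ ^ 2) ∧
    ∫ t : ℝ, Real.exp (-(t / T) ^ 2) *
      ‖∑ n ∈ Finset.Ioc N L, (n : ℂ) ^ (-((σ : ℂ) + t * I))‖ ^ 2 ≤
      √Real.pi * T * (∑ n ∈ Finset.Ioc N L, (n : ℝ) ^ (-(2 * σ)) +
        (L : ℝ) ^ 2 * Real.exp (-(T ^ 2 / (4 * (L : ℝ) ^ 2)))) := by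
  set S := Finset.Ioc N L with hS
  have hS1 : ∀ n ∈ S, 1 ≤ n := fun n hn => by
    have := (Finset.mem_Ioc.1 hn).1
    omega
  have hSL : ∀ n ∈ S, n ≤ L := fun n hn => (Finset.mem_Ioc.1 hn).2
  have hint : ∀ m n : ℕ, Integrable fun t : ℝ => ((gr σ m * gr σ n : ℝ) : ℂ) *
        cexp (((-(1 / T ^ 2) : ℝ) : ℂ) * (t : ℂ) ^ 2 +
          (I * ((Real.log n - Real.log m : ℝ) : ℂ)) * t + 0) :=
    fun m n => (gm_int T _ hT).const_mul _
  have hexp : (fun t : ℝ => ((Real.exp (-(t / T) ^ 2) *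
      ‖∑ n ∈ S, (n : ℂ) ^ (-((σ : ℂ) + t * I))‖ ^ 2 : ℝ) : ℂ)) = fun t : ℝ =>
      ∑ m ∈ S, ∑ n ∈ S, ((gr σ m * gr σ n : ℝ) : ℂ) *
        cexp (((-(1 / T ^ 2) : ℝ) : ℂ) * (t : ℂ) ^ 2 +
          (I * ((Real.log n - Real.log m : ℝ) : ℂ)) * t + 0) := by
    funext t
    exact gm_expand σ T t S hS1
  have hI : Integrable (fun t : ℝ => ((Real.exp (-(t / T) ^ 2) *
      ‖∑ n ∈ S, (n : ℂ) ^ (-((σ : ℂ) + t * I))‖ ^ 2 : ℝ) : ℂ)) := by
    rw [hexp]
    exact integrable_finsetSum _ fun m _ => integrable_finsetSum _ fun n _ => hint m n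
  have hIr : Integrable (fun t : ℝ => Real.exp (-(t / T) ^ 2) *
      ‖∑ n ∈ S, (n : ℂ) ^ (-((σ : ℂ) + t * I))‖ ^ 2) := by
    exact hI.re
  refine ⟨hIr, ?_⟩
  have hval : ∫ t : ℝ, Real.exp (-(t / T) ^ 2) *
      ‖∑ n ∈ S, (n : ℂ) ^ (-((σ : ℂ) + t * I))‖ ^ 2 = ∑ m ∈ S, ∑ n ∈ S, (gr σ m * gr σ n) *
        (√Real.pi * T * Real.exp (-(T ^ 2 * (Real.log n - Real.log m) ^ 2 / 4))) := by
    have h1 : ((∫ t : ℝ, Real.exp (-(t / T) ^ 2) *
      ‖∑ n ∈ S, (n : ℂ) ^ (-((σ : ℂ) + t * I))‖ ^ 2 : ℝ) : ℂ) =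
        ((∑ m ∈ S, ∑ n ∈ S, (gr σ m * gr σ n) *
        (√Real.pi * T * Real.exp (-(T ^ 2 * (Real.log n - Real.log m) ^ 2 / 4))) : ℝ) : ℂ) := by
      rw [← integral_complex_ofReal]
      rw [hexp, integral_finsetSum _ fun m _ => integrable_finsetSum _ fun n _ => hint m n,
        Complex.ofReal_sum]
      refine Finset.sum_congr rfl fun m _ => ?_
      rw [integral_finsetSum _ fun n _ => hint m n, Complex.ofReal_sum]
      refine Finset.sum_congr rfl fun n _ => ?_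
      rw [integral_const_mul, gm_val T _ hT, ← Complex.ofReal_mul]
    exact Complex.ofReal_injective h1
  rw [hval]
  have hr : ∀ n ∈ S, gr σ n ≤ 1 := by
    intro n hn
    rw [gr, Real.exp_le_one_iff, neg_nonpos]
    exact mul_nonneg hσ (Real.log_natCast_nonneg n)
  have hr0 : ∀ n, 0 ≤ gr σ n := fun n => (Real.exp_pos _).le
  have hr2 : ∀ n ∈ S, gr σ n * gr σ n = (n : ℝ) ^ (-(2 * σ)) := by
    intro n hn
    have hn0 : (0 : ℝ) < n := by exact_mod_cast hS1 n hn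
    rw [gr, ← Real.exp_add, Real.rpow_def_of_pos hn0]
    congr 1
    ring
  set q : ℝ := Real.exp (-(T ^ 2 / (4 * (L : ℝ) ^ 2))) with hq
  have hq0 : 0 ≤ q := (Real.exp_pos _).le
  have hterm : ∀ m ∈ S, ∀ n ∈ S, (gr σ m * gr σ n) *
      (√Real.pi * T * Real.exp (-(T ^ 2 * (Real.log n - Real.log m) ^ 2 / 4))) ≤
      √Real.pi * T * ((if m = n then (n : ℝ) ^ (-(2 * σ)) else 0) + q) := by
    intro m hm n hn
    have hc : 0 ≤ √Real.pi * T := by positivity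
    have key : (gr σ m * gr σ n) * Real.exp (-(T ^ 2 * (Real.log n - Real.log m) ^ 2 / 4)) ≤
        (if m = n then (n : ℝ) ^ (-(2 * σ)) else 0) + q := by
      by_cases hmn : m = n
      · subst hmn
        rw [if_pos rfl, hr2 m hm, sub_self]
        simp only [ne_eq, OfNat.ofNat_ne_zero, not_false_eq_true, zero_pow, mul_zero, zero_div,
          neg_zero, Real.exp_zero, mul_one]
        linarith
      · rw [if_neg hmn, zero_add]
        have hw : 1 / (L : ℝ) ≤ |Real.log n - Real.log m| := by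
          rcases lt_or_gt_of_ne hmn with h | h
          · exact (gm_log (hS1 m hm) (hSL m hm) (hS1 n hn) (hSL n hn) h).trans (le_abs_self _)
          · rw [abs_sub_comm]
            exact (gm_log (hS1 n hn) (hSL n hn) (hS1 m hm) (hSL m hm) h).trans (le_abs_self _)
        have hL0 : (0 : ℝ) < L := by
          have h1 := hS1 n hn
          have h2 := hSL n hn
          exact_mod_cast (by omega : 0 < L)
        have hw2 : 1 / (L : ℝ) ^ 2 ≤ (Real.log n - Real.log m) ^ 2 := by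
          rw [← sq_abs (Real.log n - Real.log m), ← one_div_pow]
          exact pow_le_pow_left₀ (by positivity) hw 2
        have hE : Real.exp (-(T ^ 2 * (Real.log n - Real.log m) ^ 2 / 4)) ≤ q := by
          rw [hq, Real.exp_le_exp, neg_le_neg_iff]
          calc T ^ 2 / (4 * (L : ℝ) ^ 2) = T ^ 2 * (1 / (L : ℝ) ^ 2) / 4 := by field_simp
            _ ≤ _ := by gcongr
        calc (gr σ m * gr σ n) * Real.exp (-(T ^ 2 * (Real.log n - Real.log m) ^ 2 / 4))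
            ≤ 1 * q := by
              refine mul_le_mul ?_ hE (Real.exp_pos _).le zero_le_one
              exact mul_le_one₀ (hr m hm) (hr0 n) (hr n hn)
          _ = q := one_mul q
    calc _ = √Real.pi * T * ((gr σ m * gr σ n) *
          Real.exp (-(T ^ 2 * (Real.log n - Real.log m) ^ 2 / 4))) := by ring
      _ ≤ _ := mul_le_mul_of_nonneg_left key hc
  refine (Finset.sum_le_sum fun m hm => Finset.sum_le_sum fun n hn => hterm m hm n hn).trans ?_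
  have hsum : ∑ m ∈ S, ∑ n ∈ S, √Real.pi * T * ((if m = n then (n : ℝ) ^ (-(2 * σ)) else 0) + q) =
      √Real.pi * T * (∑ n ∈ S, (n : ℝ) ^ (-(2 * σ)) + (S.card : ℝ) ^ 2 * q) := by
    simp only [← Finset.mul_sum, Finset.sum_add_distrib, Finset.sum_const, nsmul_eq_mul]
    congr 2
    · refine Finset.sum_congr rfl fun m hm => ?_
      rw [Finset.sum_ite_eq, if_pos hm]
    · ring
  rw [hsum]
  have hcard : (S.card : ℝ) ≤ L := by
    have : S.card ≤ L := by rw [hS, Nat.card_Ioc]; omega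
    exact_mod_cast this
  gcongr


end ZU.J_a3

alias ZU.gauss_mv := ZU.J_a3.gauss_mv
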